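import Pool.Agent.P8H12.JN.Fin

/-!
# The distribution of `h - rad / n` in the `n`-term abc conjecture over `ℚ`

All points of the hyperplane `z_1 + ⋯ + z_n = 0`, `n ≥ 3`, over `ℚ` with nonzero coordinates and
polynomial height are ordered by the product `R` of the radicals of their coordinates. We determine

* the asymptotic number `κ X ^ ((n - 1) / n)` of the points with `R ≤ X`, with an explicit `κ` (values
  of the Gamma function and the cosine times an Euler product);
* the joint limit law of the real shape, the repeated part `|z_1 ⋯ z_n| / R` and the shared part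
  `R / exp (rad)` of the point: the shape is independent of the two parts;
* the limit law of `h - rad / n`; in particular `rad / n ≤ h ≤ rad / n + ψ(R)` for almost all points
  and every function `ψ` tending to infinity, and for no constant `ψ`.

The starting file `ExceptionsOffClosedSubsets` of this problem shows that the number has the exact order
`X ^ ((n - 1) / n)` and that `h < M rad + c` fails for a power saving proportion of the points, for every
`M > 1 / n`. For `n = 3` (and all heights) the law is the starting theorem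
`MP_7aad9f_nt.JointLaw`.

Proof. The tail (points of height larger than `T X ^ (1 / n)`) is bounded by the theorems of the starting
files `Pool.Agent.Y594.NT`. The other points with `R ≥ X / T` have all coordinates of the order of
`X ^ (1 / n)` and a bounded repeated part, and for them `R ≤ X` is a condition on the real point
`z / X ^ (1 / n)` and the repeated part; they are counted by lattice points in residue classes and a
sieve. The local densities are computed for all `n`, the volume by beta integrals over the real line.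
Project JN: helpers 10, 12, 38, 75, 87, 89.
-/

set_option autoImplicit false

namespace Pool.Agent.Results.MP_7475bd_nt.JointLawNTerms

open Filter Topology MeasureTheory Finset

/-- `h(P) = log max |z_i|` for a point `P` with coprime integer coordinates `z` -/
noncomputable def h {n : ℕ} (z : Fin n → ℤ) : ℝ :=
  Real.log ((univ.sup fun j => (z j).natAbs : ℕ) : ℝ)

open scoped Classical in
/-- `rad(P)`: the sum of `log p` over the primes `p` for which the `ord_p (z_i)` are not all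
equal (for nonzero integers `z_i` such a prime divides one of them) -/
noncomputable def rad {n : ℕ} (z : Fin n → ℤ) : ℝ :=
  ∑ p ∈ (∏ i, z i).natAbs.primeFactors.filter
    (fun p => ∃ i j, padicValInt p (z i) ≠ padicValInt p (z j)), Real.log p

/-- the product of the primes dividing `m` -/
def radical (m : ℕ) : ℕ := ∏ p ∈ m.primeFactors, p

/-- `R(P)`, the product of the radicals of the coordinates -/
def prodRad {n : ℕ} (z : Fin n → ℤ) : ℕ := ∏ i, radical (z i).natAbs

/-- coprime integer coordinates `z` of a point over `ℚ` of the hyperplane `z_1 + ⋯ + z_n = 0` with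
nonzero coordinates (every point has two such vectors) -/
def IsPoint {n : ℕ} (z : Fin n → ℤ) : Prop := univ.gcd z = 1 ∧ ∑ i, z i = 0 ∧ ∀ i, z i ≠ 0

/-- the points with `R(P) ≤ X` of height `h(P) ≤ A log X` -/
def Points (n : ℕ) (A X : ℝ) : Set (Fin n → ℤ) :=
  {z | IsPoint z ∧ h z ≤ A * Real.log X ∧ (prodRad z : ℝ) ≤ X}

/-- the repeated part `|z_1 ⋯ z_n| / R(P)`, an integer -/
def repeated {n : ℕ} (z : Fin n → ℤ) : ℕ := (∏ i, (z i).natAbs) / prodRad z

/-- the shared part `R(P) / radical (z_1 ⋯ z_n) = R(P) / exp (rad(P))`, an integer -/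
def shared {n : ℕ} (z : Fin n → ℤ) : ℕ := prodRad z / radical (∏ i, (z i).natAbs)

/-- `(1 - 1 / p) / (p (1 - p ^ (-1 / n)))` -/
noncomputable def yP (n : ℕ) (p : ℝ) : ℝ := (1 - 1 / p) / p / (1 - p ^ (-(1 / (n : ℝ))))

/-- the factor of the constant at the prime `p`: `(1 - 1/p + y)^n + (p - 1) (y - 1/p)^n - p y^n` with
`y = yP n p` -/
noncomputable def factor (n : ℕ) (p : ℝ) : ℝ :=
  (1 - 1 / p + yP n p) ^ n + (p - 1) * (yP n p - 1 / p) ^ n - p * yP n p ^ n

/-- `|u_1 ⋯ u_d (u_1 + ⋯ + u_d)|`, the absolute value of the product of the coordinates of the real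
point `(u_1, …, u_d, -(u_1 + ⋯ + u_d))` of the hyperplane, `n = d + 1` -/
noncomputable def absProd {d : ℕ} (u : Fin d → ℝ) : ℝ := |(∏ i, u i) * ∑ i, u i|

/-- the volume of the part `|u_1 ⋯ u_d (u_1 + ⋯ + u_d)| ≤ 1` of `Q` -/
noncomputable def vol {d : ℕ} (Q : Set (Fin d → ℝ)) : ℝ :=
  (volume {u : Fin d → ℝ | u ∈ Q ∧ absProd u ≤ 1}).toReal

/-- the limit law of `h - rad / n`, `n = d + 1`, if `ρ (w, s)` is the density of the points with
repeated part `w` and shared part `s`: for these points `h - rad / n ≤ L` is the condition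
`w s max |z_i| ^ n ≤ exp (n L) |z_1 ⋯ z_n|` (here `‖u‖ = max |u_i|`) -/
noncomputable def law (d : ℕ) (ρ : ℕ × ℕ → ℝ) (L : ℝ) : ℝ :=
  ∑' x : ℕ × ℕ, (x.1 : ℝ) ^ ((d : ℝ) / (d + 1)) * ρ x *
    vol {u : Fin d → ℝ | (x.1 : ℝ) * x.2 * max ‖u‖ |∑ i, u i| ^ (d + 1) ≤
      Real.exp (((d : ℝ) + 1) * L) * absProd u}

section proof

open Pool.Agent.P8H12

variable {d : ℕ}

lemma isPoint_co (y : Fin d → ℤ) : IsPoint (JN.co y) ↔ JN.Pt (JN.co y) :=
  ⟨fun h => ⟨h.1, h.2.2⟩, fun h => ⟨h.1, JN.sum_co y, h.2⟩⟩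

lemma exists_co {z : Fin (d + 1) → ℤ} (hz : ∑ i, z i = 0) : ∃ y : Fin d → ℤ, JN.co y = z := by
  refine ⟨fun i => z i.castSucc, ?_⟩
  funext i
  refine Fin.lastCases ?_ (fun j => ?_) i
  · rw [JN.co_last]
    rw [Fin.sum_univ_castSucc] at hz
    linarith
  · rw [JN.co_castSucc]

lemma Phi_eq (u : Fin d → ℝ) : JN.Phi u = absProd u := by
  unfold JN.Phi absProd
  rw [Fin.prod_univ_castSucc, JN.co_last, abs_neg, abs_mul, Finset.abs_prod]
  simp only [JN.co_castSucc]

lemma norm_co (u : Fin d → ℝ) : ‖JN.co u‖ = max ‖u‖ |∑ i, u i| := by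
  apply le_antisymm
  · rw [pi_norm_le_iff_of_nonneg (le_max_of_le_left (norm_nonneg _))]
    intro i
    refine Fin.lastCases ?_ (fun j => ?_) i
    · rw [JN.co_last, norm_neg, Real.norm_eq_abs]
      exact le_max_right _ _
    · rw [JN.co_castSucc]
      exact (norm_le_pi_norm u j).trans (le_max_left _ _)
  · apply max_le
    · rw [pi_norm_le_iff_of_nonneg (norm_nonneg _)]
      intro i
      rw [← JN.co_castSucc u i]
      exact norm_le_pi_norm _ _
    · have h1 := norm_le_pi_norm (JN.co u) (Fin.last d)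
      rwa [JN.co_last, norm_neg, Real.norm_eq_abs] at h1

lemma vol_eq (Q : Set (Fin d → ℝ)) : vol Q = (volume (Q ∩ JN.Un d)).toReal := by
  unfold vol JN.Un
  congr 2
  ext u
  simp only [Set.mem_ofPred_eq, Set.mem_inter_iff, Phi_eq]

lemma sup_pos {n : ℕ} {z : Fin n → ℤ} (hz : IsPoint z) :
    1 ≤ (univ.sup fun j => (z j).natAbs) := by
  by_contra hcon
  have h0 : (univ.sup fun j => (z j).natAbs) = 0 := by omega
  rcases isEmpty_or_nonempty (Fin n) with he | ⟨⟨i⟩⟩
  · have := hz.1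
    rw [Finset.univ_eq_empty, Finset.gcd_empty] at this
    exact zero_ne_one this
  · have h1 : (z i).natAbs ≤ univ.sup fun j => (z j).natAbs :=
      Finset.le_sup (f := fun j => (z j).natAbs) (mem_univ i)
    have := hz.2.2 i
    omega

lemma sup_le_iff {n : ℕ} {z : Fin n → ℤ} (hz : IsPoint z) {B : ℝ} :
    ((univ.sup fun j => (z j).natAbs : ℕ) : ℝ) ≤ B ↔ ∀ i, |((z i : ℤ) : ℝ)| ≤ B := by
  constructor
  · intro h1 i
    rw [← Int.cast_abs, ← Nat.cast_natAbs]
    exact le_trans (by exact_mod_cast Finset.le_sup (f := fun j => (z j).natAbs) (mem_univ i)) h1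
  · intro h1
    have hne : (univ : Finset (Fin n)).Nonempty := by
      rw [Finset.univ_nonempty_iff]
      by_contra hcon
      rw [not_nonempty_iff] at hcon
      have := sup_pos hz
      rw [Finset.univ_eq_empty, Finset.sup_empty] at this
      exact absurd this (by decide)
    obtain ⟨i, -, hi⟩ := Finset.exists_mem_eq_sup univ hne (fun j => (z j).natAbs)
    rw [hi, Nat.cast_natAbs, Int.cast_abs]
    exact h1 i

lemma mem_points {A X : ℝ} (hX : 0 < X) (y : Fin d → ℤ) :
    JN.co y ∈ Points (d + 1) A X ↔ y ∈ JN.PY d A X := by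
  constructor
  · rintro ⟨h1, h2, h3⟩
    refine ⟨(isPoint_co y).1 h1, ?_, h3⟩
    rw [← sup_le_iff h1]
    unfold h at h2
    rw [← Real.log_rpow hX] at h2
    have h4 := sup_pos h1
    exact (Real.log_le_log_iff (by exact_mod_cast h4) (by positivity)).1 h2
  · rintro ⟨h1, h2, h3⟩
    have h1' := (isPoint_co y).2 h1
    refine ⟨h1', ?_, h3⟩
    rw [← sup_le_iff h1'] at h2
    unfold h
    rw [← Real.log_rpow hX]
    have h4 := sup_pos h1'
    exact Real.log_le_log (by exact_mod_cast h4) h2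

lemma ncard_points {A X : ℝ} (hX : 0 < X) (P : (Fin (d + 1) → ℤ) → Prop) :
    {z ∈ Points (d + 1) A X | P z}.ncard = {y ∈ JN.PY d A X | P (JN.co y)}.ncard := by
  rw [← Set.ncard_image_of_injective _ (JN.co_inj (R := ℤ) (d := d))]
  congr 1
  ext z
  constructor
  · rintro ⟨h1, h2⟩
    obtain ⟨y, rfl⟩ := exists_co h1.1.2.1
    exact ⟨y, ⟨(mem_points hX y).1 h1, h2⟩, rfl⟩
  · rintro ⟨y, ⟨h1, h2⟩, rfl⟩
    exact ⟨(mem_points hX y).2 h1, h2⟩

theorem finite_points (n : ℕ) (A X : ℝ) : (Points n A X).Finite := by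
  set B := ⌊Real.exp (A * Real.log X)⌋₊ with hB
  refine Set.Finite.subset (Finset.finite_toSet
    (Fintype.piFinset fun _ : Fin n => Icc (-(B : ℤ)) B)) ?_
  rintro z ⟨h1, h2, -⟩
  rw [mem_coe, Fintype.mem_piFinset]
  intro j
  have h4 := sup_pos h1
  have h5 : ((univ.sup fun j => (z j).natAbs : ℕ) : ℝ) ≤ Real.exp (A * Real.log X) := by
    rw [← Real.log_le_iff_le_exp (by exact_mod_cast h4)]
    exact h2
  have h6 : (univ.sup fun j => (z j).natAbs) ≤ B := Nat.le_floor h5
  have h7 : (z j).natAbs ≤ univ.sup fun j => (z j).natAbs :=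
    Finset.le_sup (f := fun j => (z j).natAbs) (mem_univ j)
  rw [mem_Icc]
  omega

theorem rad_eq {n : ℕ} {z : Fin n → ℤ} (hz : IsPoint z) :
    rad z = Real.log (radical (∏ i, (z i).natAbs) : ℝ) := by
  classical
  obtain ⟨h1, -, hne⟩ := hz
  have e1 : (∏ i, z i).natAbs = ∏ i, (z i).natAbs := by
    rw [← Int.natAbsHom_apply, map_prod]; rfl
  have e2 : (∏ i, z i).natAbs.primeFactors.filter
      (fun p => ∃ i j, padicValInt p (z i) ≠ padicValInt p (z j)) =
      (∏ i, (z i).natAbs).primeFactors := by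
    rw [e1]
    apply Finset.filter_true_of_mem
    intro p hp
    rw [Nat.mem_primeFactors] at hp
    obtain ⟨hp, hpd, -⟩ := hp
    obtain ⟨i, -, hi⟩ := (Nat.Prime.prime hp).exists_mem_finset_dvd hpd
    have hj : ∃ j, ¬ (p : ℤ) ∣ z j := by
      by_contra hcon
      push Not at hcon
      have h2 : (p : ℤ) ∣ univ.gcd z := Finset.dvd_gcd fun j _ => hcon j
      rw [h1] at h2
      exact hp.one_lt.ne' (by
        have := Int.isUnit_iff.1 (isUnit_of_dvd_one h2)
        omega)
    obtain ⟨j, hj⟩ := hj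
    refine ⟨i, j, ?_⟩
    have : Fact p.Prime := ⟨hp⟩
    have h3 : padicValInt p (z j) = 0 := padicValInt.eq_zero_of_not_dvd hj
    have h4 : 1 ≤ padicValInt p (z i) := by
      unfold padicValInt
      exact one_le_padicValNat_of_dvd (Int.natAbs_ne_zero.2 (hne i)) hi
    omega
  unfold rad radical
  rw [Nat.cast_prod, Real.log_prod]
  · exact Finset.sum_congr (by convert e2) fun _ _ => rfl
  · intro p hp
    exact_mod_cast (Nat.prime_of_mem_primeFactors hp).pos.ne'

/-- the parts -/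
lemma parts {z : Fin (d + 1) → ℤ} (hd : 2 ≤ d) (hz : IsPoint z) :
    radical (∏ i, (z i).natAbs) * shared z * repeated z = ∏ i, (z i).natAbs ∧
      1 ≤ repeated z ∧ 1 ≤ shared z ∧ 1 ≤ radical (∏ i, (z i).natAbs) := by
  obtain ⟨-, -, h1, h2, h3, h4⟩ := JN.a_rep (d + 1) (by omega) z hz.2.2
  refine ⟨?_, h3, h4, Finset.prod_pos fun p hp => (Nat.prime_of_mem_primeFactors hp).pos⟩
  have e1 : radical (∏ i, (z i).natAbs) * shared z = JN.RR z := h2
  rw [e1]
  exact h1

/-- the height condition as a condition on cones -/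
lemma height_iff (hd : 2 ≤ d) {y : Fin d → ℤ} (hz : IsPoint (JN.co y)) (L : ℝ) :
    h (JN.co y) ≤ rad (JN.co y) / ((d : ℝ) + 1) + L ↔
      JN.sc 1 y ∈ JN.HC d (((JN.rep (JN.co y) : ℕ) : ℝ) * (JN.sh (JN.co y) : ℕ) *
        Real.exp (-((d : ℝ) + 1) * L)) := by
  obtain ⟨h1, h2, h3, h4⟩ := parts hd hz
  set z := JN.co y with hzdef
  have hd1 : (0 : ℝ) < (d : ℝ) + 1 := by positivity
  have hsc : (JN.co (JN.sc 1 y) : Fin (d + 1) → ℝ) = fun i => ((z i : ℤ) : ℝ) := by
    funext i
    refine Fin.lastCases ?_ (fun j => ?_) i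
    · rw [hzdef, JN.co_last, JN.co_last]
      unfold JN.sc
      push_cast
      simp
    · rw [hzdef, JN.co_castSucc, JN.co_castSucc]
      unfold JN.sc
      simp
  set M : ℝ := ((univ.sup fun j => (z j).natAbs : ℕ) : ℝ) with hM
  have hM1 : 1 ≤ M := by
    rw [hM]
    exact_mod_cast sup_pos hz
  have hnorm : ‖(JN.co (JN.sc 1 y) : Fin (d + 1) → ℝ)‖ = M := by
    rw [hsc]
    apply le_antisymm
    · rw [pi_norm_le_iff_of_nonneg (by linarith)]
      intro i
      rw [Real.norm_eq_abs]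
      exact (sup_le_iff hz).1 le_rfl i
    · rw [hM, sup_le_iff hz]
      intro i
      exact norm_le_pi_norm (fun i => ((z i : ℤ) : ℝ)) i
  have hPhi : JN.Phi (JN.sc 1 y) = ((∏ i, (z i).natAbs : ℕ) : ℝ) := by
    unfold JN.Phi
    rw [hsc]
    push_cast
    exact Finset.prod_congr rfl fun i _ => by rw [Nat.cast_natAbs, Int.cast_abs]
  have hr0 : (0 : ℝ) < (repeated z : ℝ) := by exact_mod_cast h2
  have hs0 : (0 : ℝ) < (shared z : ℝ) := by exact_mod_cast h3
  have hp0 : (0 : ℝ) < (radical (∏ i, (z i).natAbs) : ℝ) := by exact_mod_cast h4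
  have hprod : ((∏ i, (z i).natAbs : ℕ) : ℝ) =
      (radical (∏ i, (z i).natAbs) : ℝ) * (shared z : ℝ) * (repeated z : ℝ) := by
    exact_mod_cast h1.symm
  have e1 : JN.sc 1 y ∈ JN.HC d (((JN.rep z : ℕ) : ℝ) * (JN.sh z : ℕ) *
      Real.exp (-((d : ℝ) + 1) * L)) ↔
      (repeated z : ℝ) * (shared z : ℝ) * Real.exp (-((d : ℝ) + 1) * L) * M ^ (d + 1) ≤
        (radical (∏ i, (z i).natAbs) : ℝ) * (shared z : ℝ) * (repeated z : ℝ) := by
    show (((JN.rep z : ℕ) : ℝ) * (JN.sh z : ℕ) * Real.exp (-((d : ℝ) + 1) * L)) *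
      ‖(JN.co (JN.sc 1 y) : Fin (d + 1) → ℝ)‖ ^ (d + 1) ≤ JN.Phi (JN.sc 1 y) ↔ _
    rw [hnorm, hPhi, hprod]
    rfl
  rw [e1, rad_eq hz]
  have e2 : (repeated z : ℝ) * (shared z : ℝ) * Real.exp (-((d : ℝ) + 1) * L) * M ^ (d + 1) ≤
        (radical (∏ i, (z i).natAbs) : ℝ) * (shared z : ℝ) * (repeated z : ℝ) ↔
      Real.exp (-((d : ℝ) + 1) * L) * M ^ (d + 1) ≤ (radical (∏ i, (z i).natAbs) : ℝ) := by
    rw [show (repeated z : ℝ) * (shared z : ℝ) * Real.exp (-((d : ℝ) + 1) * L) * M ^ (d + 1) =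
      ((shared z : ℝ) * (repeated z : ℝ)) * (Real.exp (-((d : ℝ) + 1) * L) * M ^ (d + 1)) by ring,
      show (radical (∏ i, (z i).natAbs) : ℝ) * (shared z : ℝ) * (repeated z : ℝ) =
      ((shared z : ℝ) * (repeated z : ℝ)) * (radical (∏ i, (z i).natAbs) : ℝ) by ring]
    exact mul_le_mul_iff_right₀ (by positivity)
  rw [e2, ← Real.log_le_log_iff (by positivity) hp0, Real.log_mul (Real.exp_pos _).ne'
    (by positivity), Real.log_exp, Real.log_pow]
  unfold h
  rw [← hM]
  push_cast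
  rw [← sub_le_iff_le_add, le_div_iff₀ hd1]
  constructor <;> intro h5 <;> nlinarith

lemma law_eq (d : ℕ) : law d (fun x => JN.rho2 (d + 1) x) = JN.GG d := by
  funext L
  unfold law JN.GG JN.wt
  refine tsum_congr fun x => ?_
  rw [JN.gam_eq, vol_eq]
  congr 4
  ext u
  simp only [Set.mem_ofPred_eq]
  show _ ↔ (x.1 : ℝ) * x.2 * Real.exp (-((d : ℝ) + 1) * L) * ‖JN.co u‖ ^ (d + 1) ≤ JN.Phi u
  rw [norm_co, Phi_eq]
  have e : Real.exp (-((d : ℝ) + 1) * L) = (Real.exp (((d : ℝ) + 1) * L))⁻¹ := by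
    rw [← Real.exp_neg]
    congr 1
    ring
  rw [e]
  have hE : 0 < Real.exp (((d : ℝ) + 1) * L) := Real.exp_pos _
  rw [show (x.1 : ℝ) * x.2 * (Real.exp (((d : ℝ) + 1) * L))⁻¹ * max ‖u‖ |∑ i, u i| ^ (d + 1) =
    ((x.1 : ℝ) * x.2 * max ‖u‖ |∑ i, u i| ^ (d + 1)) / Real.exp (((d : ℝ) + 1) * L) by
      field_simp, div_le_iff₀ hE, mul_comm (absProd u)]

/-- the box -/
lemma box_jor (d : ℕ) : JN.Jor {u : Fin d → ℝ | ∀ i, |JN.co u i| ≤ 1} ∧
    0 < (volume {u : Fin d → ℝ | ∀ i, |JN.co u i| ≤ 1}).toReal := by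
  have hcont : ∀ i, Continuous fun u : Fin d → ℝ => JN.co u i := by
    intro i
    refine Fin.lastCases ?_ (fun j => ?_) i
    · simp only [JN.co_last]
      fun_prop
    · simp only [JN.co_castSucc]
      fun_prop
  have hclosed : IsClosed {u : Fin d → ℝ | ∀ i, |JN.co u i| ≤ 1} := by
    have e : {u : Fin d → ℝ | ∀ i, |JN.co u i| ≤ 1} = ⋂ i, {u | |JN.co u i| ≤ 1} := by
      ext u; simp
    rw [e]
    exact isClosed_iInter fun i => isClosed_le (hcont i).abs continuous_const
  have hbdd : Bornology.IsBounded {u : Fin d → ℝ | ∀ i, |JN.co u i| ≤ 1} := by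
    refine (Metric.isBounded_closedBall (x := (0 : Fin d → ℝ)) (r := 1)).subset ?_
    intro u hu
    rw [mem_closedBall_zero_iff, pi_norm_le_iff_of_nonneg zero_le_one]
    intro i
    have := hu i.castSucc
    rwa [JN.co_castSucc] at this
  have hconv : Convex ℝ {u : Fin d → ℝ | ∀ i, |JN.co u i| ≤ 1} := by
    intro u hu v hv a b ha hb hab i
    have e : JN.co (a • u + b • v) i = a * JN.co u i + b * JN.co v i := by
      refine Fin.lastCases ?_ (fun j => ?_) i
      · rw [JN.co_last, JN.co_last, JN.co_last]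
        simp only [Pi.add_apply, Pi.smul_apply, smul_eq_mul, Finset.sum_add_distrib,
          ← Finset.mul_sum]
        ring
      · rw [JN.co_castSucc, JN.co_castSucc, JN.co_castSucc]
        rfl
    rw [e]
    calc |a * JN.co u i + b * JN.co v i| ≤ |a * JN.co u i| + |b * JN.co v i| := abs_add_le _ _
      _ = a * |JN.co u i| + b * |JN.co v i| := by
        rw [abs_mul, abs_mul, abs_of_nonneg ha, abs_of_nonneg hb]
      _ ≤ a * 1 + b * 1 := add_le_add (mul_le_mul_of_nonneg_left (hu i) ha)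
        (mul_le_mul_of_nonneg_left (hv i) hb)
      _ = 1 := by rw [mul_one, mul_one, hab]
  refine ⟨⟨hbdd, hclosed.measurableSet, hconv.addHaar_frontier volume⟩, ?_⟩
  apply ENNReal.toReal_pos
  · apply ne_of_gt
    have hopen : IsOpen {u : Fin d → ℝ | ∀ i, |JN.co u i| < 1} := by
      have e : {u : Fin d → ℝ | ∀ i, |JN.co u i| < 1} = ⋂ i, {u | |JN.co u i| < 1} := by
        ext u; simp
      rw [e]
      exact isOpen_iInter_of_finite fun i => isOpen_lt (hcont i).abs continuous_const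
    have h0 : (0 : Fin d → ℝ) ∈ {u : Fin d → ℝ | ∀ i, |JN.co u i| < 1} := by
      intro i
      have e : JN.co (0 : Fin d → ℝ) i = 0 := by
        refine Fin.lastCases ?_ (fun j => ?_) i
        · rw [JN.co_last]; simp
        · rw [JN.co_castSucc]; rfl
      rw [e, abs_zero]
      exact one_pos
    exact (hopen.measure_pos volume ⟨0, h0⟩).trans_le
      (measure_mono fun u hu i => (hu i).le)
  · exact hbdd.measure_lt_top.ne

lemma box_iff {N : ℕ} (hN : 0 < N) (y : Fin d → ℤ) :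
    (∀ i, |JN.co y i| ≤ (N : ℤ)) ↔ JN.sc (N : ℝ) y ∈ {u : Fin d → ℝ | ∀ i, |JN.co u i| ≤ 1} := by
  have hN0 : (0 : ℝ) < N := by exact_mod_cast hN
  have e : ∀ i, JN.co (JN.sc (N : ℝ) y) i = ((JN.co y i : ℤ) : ℝ) / N := by
    intro i
    refine Fin.lastCases ?_ (fun j => ?_) i
    · rw [JN.co_last, JN.co_last]
      unfold JN.sc
      push_cast
      rw [← Finset.sum_div, neg_div]
    · rw [JN.co_castSucc, JN.co_castSucc]
      rfl
  simp only [Set.mem_ofPred_eq, e]
  refine forall_congr' fun i => ?_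
  rw [abs_div, abs_of_pos hN0, div_le_one hN0]
  constructor
  · intro h1
    have h2 : ((|JN.co y i| : ℤ) : ℝ) ≤ ((N : ℤ) : ℝ) := by exact_mod_cast h1
    push_cast at h2
    exact h2
  · intro h1
    have h2 : ((|JN.co y i| : ℤ) : ℝ) ≤ ((N : ℤ) : ℝ) := by
      push_cast
      exact h1
    exact_mod_cast h2

theorem density (d : ℕ) (hd : 2 ≤ d) (w s : ℕ) : Tendsto (fun N : ℕ =>
    (({z : Fin (d + 1) → ℤ | IsPoint z ∧ repeated z = w ∧ shared z = s ∧
      ∀ i, |z i| ≤ (N : ℤ)}.ncard : ℕ) : ℝ) /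
      ({z : Fin (d + 1) → ℤ | ∑ i, z i = 0 ∧ ∀ i, |z i| ≤ (N : ℤ)}.ncard : ℕ)) atTop
    (𝓝 (JN.rho2 (d + 1) (w, s))) := by
  obtain ⟨hJ, hpos⟩ := box_jor d
  set D := {u : Fin d → ℝ | ∀ i, |JN.co u i| ≤ 1} with hD
  have h1 := ((JN.a_dat d hd).2.dens (w, s) D hJ).comp tendsto_natCast_atTop_atTop
  have h2 := (JN.a_eq d D hJ 1 one_pos (fun _ => 0)).comp tendsto_natCast_atTop_atTop
  have h3 := h1.div h2 (by simpa using hpos.ne')
  have e0 : (volume D).toReal * JN.rho2 (d + 1) (w, s) / ((volume D).toReal / ((1 : ℕ) : ℝ) ^ d) =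
      JN.rho2 (d + 1) (w, s) := by
    rw [Nat.cast_one, one_pow, div_one, mul_div_assoc, mul_comm, div_mul_cancel₀ _ hpos.ne']
  rw [e0] at h3
  refine h3.congr' ?_
  filter_upwards [eventually_gt_atTop 0] with N hN
  have hN0 : (0 : ℝ) < N := by exact_mod_cast hN
  have e1 : {z : Fin (d + 1) → ℤ | IsPoint z ∧ repeated z = w ∧ shared z = s ∧
      ∀ i, |z i| ≤ (N : ℤ)} = JN.co '' {y : Fin d → ℤ | JN.Pt (JN.co y) ∧
        (JN.rep (JN.co y), JN.sh (JN.co y)) = (w, s) ∧ JN.sc (N : ℝ) y ∈ D} := by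
    ext z
    constructor
    · rintro ⟨g1, g2, g3, g4⟩
      obtain ⟨y, rfl⟩ := exists_co g1.2.1
      exact ⟨y, ⟨(isPoint_co y).1 g1, Prod.ext g2 g3, (box_iff hN y).1 g4⟩, rfl⟩
    · rintro ⟨y, ⟨g1, g2, g3⟩, rfl⟩
      exact ⟨(isPoint_co y).2 g1, congrArg Prod.fst g2, congrArg Prod.snd g2,
        (box_iff hN y).2 g3⟩
  have e2 : {z : Fin (d + 1) → ℤ | ∑ i, z i = 0 ∧ ∀ i, |z i| ≤ (N : ℤ)} =
      JN.co '' {z : Fin d → ℤ | (∃ y : Fin d → ℤ, ∀ i, z i = 0 + ((1 : ℕ) : ℤ) * y i) ∧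
        (fun i => (z i : ℝ) / (N : ℝ)) ∈ D} := by
    ext z
    constructor
    · rintro ⟨g1, g2⟩
      obtain ⟨y, rfl⟩ := exists_co g1
      exact ⟨y, ⟨⟨y, fun i => by simp⟩, (box_iff hN y).1 g2⟩, rfl⟩
    · rintro ⟨y, ⟨-, g2⟩, rfl⟩
      exact ⟨JN.sum_co y, (box_iff hN y).2 g2⟩
  rw [e1, e2, Set.ncard_image_of_injective _ JN.co_inj, Set.ncard_image_of_injective _ JN.co_inj]
  simp only [Function.comp_apply, Pi.div_apply]
  rw [div_div_div_cancel_right₀ (by positivity)]

theorem rad_le (hd : 2 ≤ d) {z : Fin (d + 1) → ℤ} (hz : IsPoint z) :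
    rad z / ((d : ℝ) + 1) ≤ h z := by
  obtain ⟨h1, h2, h3, h4⟩ := parts hd hz
  have hd1 : (0 : ℝ) < (d : ℝ) + 1 := by positivity
  rw [rad_eq hz, div_le_iff₀ hd1]
  have h5 : radical (∏ i, (z i).natAbs) ≤ ∏ i, (z i).natAbs := by
    calc radical (∏ i, (z i).natAbs) ≤ radical (∏ i, (z i).natAbs) * (shared z * repeated z) :=
          Nat.le_mul_of_pos_right _ (Nat.mul_pos h3 h2)
      _ = _ := by
        rw [← mul_assoc]
        exact h1
  have h6 : (∏ i, (z i).natAbs) ≤ (univ.sup fun j => (z j).natAbs) ^ (d + 1) := by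
    calc (∏ i, (z i).natAbs) ≤ ∏ _i : Fin (d + 1), (univ.sup fun j => (z j).natAbs) :=
          Finset.prod_le_prod' fun i _ =>
            Finset.le_sup (f := fun j => (z j).natAbs) (mem_univ i)
      _ = _ := by rw [prod_const, card_univ, Fintype.card_fin]
  have h7 : (radical (∏ i, (z i).natAbs) : ℝ) ≤
      ((univ.sup fun j => (z j).natAbs : ℕ) : ℝ) ^ (d + 1) := by exact_mod_cast h5.trans h6
  have h8 := Real.log_le_log (by exact_mod_cast h4) h7
  rw [Real.log_pow] at h8
  unfold h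
  push_cast at h8
  linarith

end proof

open Pool.Agent.P8H12 in
/-- **The `n`-term abc conjecture over `ℚ`: the distribution of all points ordered by the product of
the radicals of the coordinates.** Let `d ≥ 2` and `n = d + 1`. There are `κ > 0` and `ρ (w, s) ≥ 0`
such that
(a) `κ` is the limit of `(2 Γ(1/n) cos(π/(2n)))^n / (π (n - 1)) ∏_{p < N} factor n p`;
(b) `ρ (w, s)` is the density, among all integral points of the hyperplane, of the points with repeated
part `w` and shared part `s`;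
(c) `law d ρ L < κ` for all `L` and `law d ρ L → κ` for `L → ∞`; `rad / n ≤ h` for all points;
and for every `A > 1 / n`, for the points with `R ≤ X` and `h ≤ A log X`:
(1) their number is asymptotic to `κ X ^ ((n - 1) / n)`;
(2) for every set `S` of pairs and every cone `Q` with null frontier the number of the points with
(repeated part, shared part) in `S` and `(z_1, …, z_d)` in `Q` is asymptotic to
`(∑_{(w, s) ∈ S} w ^ ((n - 1) / n) ρ (w, s)) vol(Q) X ^ ((n - 1) / n)`;
(3) for every `L` the number of the points with `h ≤ rad / n + L` is asymptotic to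
`law d ρ L X ^ ((n - 1) / n)`;
(4) for every `ψ : ℕ → ℝ` tending to infinity the number of the points with `h > rad / n + ψ(R)` is
`o (X ^ ((n - 1) / n))`. -/
theorem result (d : ℕ) (hd : 2 ≤ d) : ∃ (κ : ℝ) (ρ : ℕ × ℕ → ℝ), 0 < κ ∧ (∀ x, 0 ≤ ρ x) ∧
    Tendsto (fun N : ℕ => (2 * Real.Gamma (1 / ((d : ℝ) + 1)) *
      Real.cos (Real.pi / (2 * ((d : ℝ) + 1)))) ^ (d + 1) / (Real.pi * d) *
      ∏ p ∈ N.primesBelow, factor (d + 1) p) atTop (𝓝 κ) ∧
    (∀ w s : ℕ, Tendsto (fun N : ℕ =>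
      (({z : Fin (d + 1) → ℤ | IsPoint z ∧ repeated z = w ∧ shared z = s ∧
        ∀ i, |z i| ≤ (N : ℤ)}.ncard : ℕ) : ℝ) /
        ({z : Fin (d + 1) → ℤ | ∑ i, z i = 0 ∧ ∀ i, |z i| ≤ (N : ℤ)}.ncard : ℕ)) atTop
      (𝓝 (ρ (w, s)))) ∧
    (∀ L : ℝ, law d ρ L < κ) ∧ Tendsto (law d ρ) atTop (𝓝 κ) ∧
    (∀ z : Fin (d + 1) → ℤ, IsPoint z → rad z / ((d : ℝ) + 1) ≤ h z) ∧
    ∀ A : ℝ, 1 / ((d : ℝ) + 1) < A →
      (∀ X : ℝ, (Points (d + 1) A X).Finite) ∧
      Tendsto (fun X : ℝ => (((Points (d + 1) A X).ncard : ℕ) : ℝ) /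
        X ^ ((d : ℝ) / (d + 1))) atTop (𝓝 κ) ∧
      (∀ (S : Set (ℕ × ℕ)) (Q : Set (Fin d → ℝ)), MeasurableSet Q → volume (frontier Q) = 0 →
        (∀ t : ℝ, 0 < t → ∀ u ∈ Q, t • u ∈ Q) →
        Tendsto (fun X : ℝ => (({z ∈ Points (d + 1) A X | (repeated z, shared z) ∈ S ∧
          (fun i : Fin d => ((z i.castSucc : ℤ) : ℝ)) ∈ Q}.ncard : ℕ) : ℝ) /
          X ^ ((d : ℝ) / (d + 1))) atTop
          (𝓝 ((∑' x, S.indicator (fun x => (x.1 : ℝ) ^ ((d : ℝ) / (d + 1)) * ρ x) x) *
            vol Q))) ∧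
      (∀ L : ℝ, Tendsto (fun X : ℝ => (({z ∈ Points (d + 1) A X |
        h z ≤ rad z / ((d : ℝ) + 1) + L}.ncard : ℕ) : ℝ) / X ^ ((d : ℝ) / (d + 1))) atTop
        (𝓝 (law d ρ L))) ∧
      ∀ ψ : ℕ → ℝ, Tendsto ψ atTop atTop → Tendsto (fun X : ℝ =>
        (({z ∈ Points (d + 1) A X | rad z / ((d : ℝ) + 1) + ψ (prodRad z) < h z}.ncard : ℕ) : ℝ) /
          X ^ ((d : ℝ) / (d + 1))) atTop (𝓝 0) := by
  refine ⟨JN.kap d, fun x => JN.rho2 (d + 1) x, JN.kap_pos d hd, (JN.a_dat d hd).2.nn,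
    JN.kap_lim d hd, density d hd, fun L => ?_, ?_, fun z hz => rad_le hd hz, fun A hA => ?_⟩
  · rw [law_eq]
    exact JN.gg_lt d hd L
  · rw [law_eq]
    exact JN.gg_tendsto d hd
  have htot : Tendsto (fun X : ℝ => (((Points (d + 1) A X).ncard : ℕ) : ℝ) /
      X ^ ((d : ℝ) / (d + 1))) atTop (𝓝 (JN.kap d)) := by
    have h1 := JN.total d hd hA
    rw [JN.gam_eq] at h1
    refine h1.congr' ?_
    filter_upwards [eventually_gt_atTop (0 : ℝ)] with X hX
    have h2 := ncard_points (d := d) (A := A) hX (fun _ => True)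
    simp only [and_true, Set.ofPred_mem_eq] at h2
    rw [h2]
  have hlaw : ∀ L : ℝ, Tendsto (fun X : ℝ => (({z ∈ Points (d + 1) A X |
        h z ≤ rad z / ((d : ℝ) + 1) + L}.ncard : ℕ) : ℝ) / X ^ ((d : ℝ) / (d + 1))) atTop
        (𝓝 (law d (fun x => JN.rho2 (d + 1) x) L)) := by
    intro L
    have h1 := JN.hlaw d hd hA L
    rw [law_eq, ← JN.gam_eq]
    refine h1.congr' ?_
    filter_upwards [eventually_gt_atTop (0 : ℝ)] with X hX
    rw [ncard_points hX]
    congr 3
    ext y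
    constructor
    · rintro ⟨g1, g2⟩
      exact ⟨g1, (height_iff hd ((isPoint_co y).2 g1.1) L).2 g2⟩
    · rintro ⟨g1, g2⟩
      exact ⟨g1, (height_iff hd ((isPoint_co y).2 g1.1) L).1 g2⟩
  refine ⟨fun X => finite_points _ A X, htot, fun S Q hQ1 hQ2 hQ3 => ?_, hlaw, fun ψ hψ => ?_⟩
  · have h1 := JN.joint d hd hA S (Q := Q) ⟨hQ1, hQ2, hQ3⟩
    rw [JN.gam_eq] at h1
    rw [vol_eq]
    have e1 : (fun x => S.indicator (JN.wt d) x) = fun x =>
        S.indicator (fun x => (x.1 : ℝ) ^ ((d : ℝ) / (d + 1)) * JN.rho2 (d + 1) x) x := by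
      funext x
      congr 1
      funext x
      unfold JN.wt
      rw [JN.gam_eq]
    rw [e1] at h1
    refine h1.congr' ?_
    filter_upwards [eventually_gt_atTop (0 : ℝ)] with X hX
    rw [ncard_points hX]
    congr 3
    ext y
    have e2 : JN.sc 1 y = fun i : Fin d => ((JN.co y i.castSucc : ℤ) : ℝ) := by
      funext i
      rw [JN.co_castSucc]
      unfold JN.sc
      simp
    simp only [Set.mem_ofPred_eq, e2]
    rfl
  · -- the last claim
    have hd0 : (2 : ℝ) ≤ d := by exact_mod_cast hd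
    obtain ⟨A', hA'⟩ : ∃ A', A' = max A 1 := ⟨_, rfl⟩
    obtain ⟨C, ν, hC, hν, hT1, -⟩ := JN.tail d hd (2 * A') (by
      rw [hA']
      have := le_max_right A 1
      linarith)
    have hA'0 : 0 < A' := by
      rw [hA']
      exact lt_of_lt_of_le one_pos (le_max_right _ _)
    have hg : 0 < JN.gam (d + 1) := JN.gam_pos hd
    rw [← JN.gam_eq]
    refine tendsto_order.2 ⟨fun a ha => Eventually.of_forall fun X => ?_, fun ε hε => ?_⟩
    · refine ha.trans_le ?_
      rcases le_or_gt 0 X with h1 | h1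
      · positivity
      · have : (Points (d + 1) A X) = ∅ := by
          rw [Set.eq_empty_iff_forall_notMem]
          rintro z ⟨-, -, h3⟩
          have : (0 : ℝ) ≤ (prodRad z : ℝ) := Nat.cast_nonneg _
          linarith
        rw [this]
        simp
    -- the points of small radical
    obtain ⟨T, hT1', hT2⟩ : ∃ T : ℝ, 1 ≤ T ∧ C * T ^ (-JN.gam (d + 1)) < ε / 3 := by
      have h1 : Tendsto (fun T : ℝ => C * T ^ (-JN.gam (d + 1))) atTop (𝓝 (C * 0)) :=
        (tendsto_rpow_neg_atTop hg).const_mul C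
      rw [mul_zero] at h1
      obtain ⟨T, h2, h3⟩ := ((h1.eventually (gt_mem_nhds (by positivity :
        (0 : ℝ) < ε / 3))).and (eventually_ge_atTop (1 : ℝ))).exists
      exact ⟨T, h3, h2⟩
    have hT0 : 0 < T := by linarith
    -- the level
    obtain ⟨L, hL⟩ : ∃ L : ℝ, JN.kap d - ε / 3 < law d (fun x => JN.rho2 (d + 1) x) L := by
      have h1 := JN.gg_tendsto d hd
      rw [← law_eq] at h1
      exact (h1.eventually (lt_mem_nhds (by linarith))).exists
    obtain ⟨R₀, hR₀⟩ := eventually_atTop.1 (hψ.eventually_ge_atTop L)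
    have hlim := htot.sub (hlaw L)
    rw [← JN.gam_eq] at hlim
    have hlim2 := hlim.eventually (gt_mem_nhds (by linarith : JN.kap d -
      law d (fun x => JN.rho2 (d + 1) x) L < ε / 3))
    filter_upwards [hlim2, eventually_ge_atTop (T ^ 2), eventually_ge_atTop (T * R₀),
      eventually_ge_atTop (1 : ℝ)] with X hX1 hX2 hX3 hX4
    have hX0 : 0 < X := by linarith
    have hXg : 0 < X ^ JN.gam (d + 1) := by positivity
    have hXT1 : 1 ≤ X / T := by
      rw [le_div_iff₀ hT0]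
      nlinarith
    have hfin := finite_points (d + 1) A X
    set S0 := {z ∈ Points (d + 1) A X | rad z / ((d : ℝ) + 1) + ψ (prodRad z) < h z} with hS0
    set S1 := {z ∈ Points (d + 1) A X | h z ≤ rad z / ((d : ℝ) + 1) + L} with hS1
    set S2 := Points (d + 1) (2 * A') (X / T) with hS2
    have hcov : S0 ⊆ (Points (d + 1) A X \ S1) ∪ S2 := by
      rintro z ⟨g1, g2⟩
      by_cases c1 : (prodRad z : ℝ) ≤ X / T
      · right
        refine ⟨g1.1, g1.2.1.trans ?_, c1⟩
        have h3 : Real.log X ≤ 2 * Real.log (X / T) := by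
          have h5 : 2 * Real.log (X / T) = Real.log ((X / T) ^ 2) := by
            rw [Real.log_pow]
            norm_num
          rw [h5]
          apply Real.log_le_log hX0
          rw [div_pow, le_div_iff₀ (by positivity)]
          nlinarith
        have h4 : A * Real.log X ≤ A' * Real.log X := by
          rw [hA']
          exact mul_le_mul_of_nonneg_right (le_max_left _ _) (Real.log_nonneg hX4)
        calc A * Real.log X ≤ A' * Real.log X := h4
          _ ≤ A' * (2 * Real.log (X / T)) := mul_le_mul_of_nonneg_left h3 hA'0.le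
          _ = _ := by ring
      · left
        refine ⟨g1, fun h3 => ?_⟩
        push Not at c1
        have h4 : (R₀ : ℝ) ≤ (prodRad z : ℝ) := by
          have : (R₀ : ℝ) ≤ X / T := by
            rw [le_div_iff₀ hT0]
            linarith
          linarith
        have h5 := hR₀ (prodRad z) (by exact_mod_cast h4)
        have h6 : h z ≤ rad z / ((d : ℝ) + 1) + L := h3.2
        linarith
    have g1 := Set.ncard_le_ncard hcov ((hfin.subset Set.sdiff_subset).union (finite_points _ _ _))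
    have g2 := Set.ncard_union_le (Points (d + 1) A X \ S1) S2
    have hS1sub : S1 ⊆ Points (d + 1) A X := fun z hz => hz.1
    have g3 := Set.ncard_sdiff_add_ncard_of_subset hS1sub hfin
    have g4 : (S2.ncard : ℝ) ≤ C * (X / T) ^ JN.gam (d + 1) := by
      have h2 := ncard_points (d := d) (A := 2 * A') (X := X / T) (by positivity) (fun _ => True)
      simp only [and_true, Set.ofPred_mem_eq] at h2
      rw [hS2, h2]
      exact (hT1 (X / T) hXT1).2
    have e1 : (X / T) ^ JN.gam (d + 1) = T ^ (-JN.gam (d + 1)) * X ^ JN.gam (d + 1) := by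
      rw [Real.div_rpow hX0.le hT0.le, Real.rpow_neg hT0.le]
      field_simp
    rw [e1, ← mul_assoc] at g4
    have g5 : ((Points (d + 1) A X).ncard : ℝ) - (S1.ncard : ℝ) <
        ε / 3 * X ^ JN.gam (d + 1) := by
      have h7 : (((Points (d + 1) A X).ncard : ℕ) : ℝ) / X ^ JN.gam (d + 1) -
        ((S1.ncard : ℕ) : ℝ) / X ^ JN.gam (d + 1) < ε / 3 := hX1
      rwa [← sub_div, div_lt_iff₀ hXg] at h7
    have g6 : (S0.ncard : ℝ) ≤ (((Points (d + 1) A X).ncard : ℝ) - (S1.ncard : ℝ)) + S2.ncard := by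
      have h8 : (S0.ncard : ℝ) ≤ ((Points (d + 1) A X \ S1).ncard : ℝ) + S2.ncard := by
        exact_mod_cast g1.trans g2
      have h9 : (((Points (d + 1) A X \ S1).ncard : ℕ) : ℝ) + (S1.ncard : ℝ) =
          ((Points (d + 1) A X).ncard : ℝ) := by exact_mod_cast g3
      linarith
    rw [div_lt_iff₀ hXg]
    have g7 := mul_lt_mul_of_pos_right hT2 hXg
    nlinarith [g4, g5, g6, g7]

end Pool.Agent.Results.MP_7475bd_nt.JointLawNTerms
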