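import Mathlib
import Pool.Agent.P8H9.SN.Main

/-!
# MP_7475bd_nt: the abcd inequality over number fields at sparse points

Let `K` be any number field, `Γ` any finitely generated subgroup of `Kˣ` (for instance the group of
all `S`-units, or a group of units of infinite order), and let `n, l, M ≥ 0` and `ε > 0` be given.
Call an element of `K` *sparse* if it is a sum of at most `l` elements of `Γ`.

There are a nonzero form `G` over `K` in `n + 1` variables and a constant `C` such that every point
`P = (z 0 : … : z (n + 1))` of the hyperplane `∑ z i = 0` with nonzero sparse coordinates, outside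
the proper closed subset `G (z 0, …, z n) = 0`, satisfies

  `h(P) ≤ (1 + ε) log |N(ρ)| + C`

(`h` is the height relative to `K`, `N` the norm from `K` to `ℚ`) for every nonzero sparse integer
`ρ` of `K` such that a power of `ρ` is a sparse multiple of the product of the coordinates:
`ρ ^ M = t * ∏ z i` with `t` sparse. If the `z i` and `t` are integers then `ρ` is divisible by all
primes dividing the `z i`, so that `log |N(ρ)|` is an upper bound for `[K : ℚ] rad(P)`; for
`z i = g i * ∏_{j ∈ J i} x j ^ (e j)` with `g i ∈ Γ` and sparse `x j` one may take
`ρ = ∏ x j` (products of sparse elements are sparse, with a larger `l`).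

Proof: if this fails, the counterexamples define germs along an ultrafilter; by the unit theorem
(a consequence of the subspace theorem) these germs are polynomials in algebraically independent
germs of units. In the ring of polynomials (a unique factorisation domain) the Jacobian determinant
of the coordinates (after division by the common divisor) is not zero, by the genericity of the
point, and is divisible by their product up to the radical `ρ`. The subspace theorem shows that
the polynomials are as large as their largest monomials, and the product formula for the cofactor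
gives the inequality.

Authors: helper9, with helper69 (divisibility), helper78 (Jacobian criterion), helper75 (heights,
norms, field extensions).
-/

set_option autoImplicit false

namespace Pool.Agent.Results.MP_7475bd_nt.SparsePointsOverNumberFields

open NumberField MvPolynomial

/-- `x` is a sum of at most `l` elements of the group `Γ` -/
def Sparse {K : Type} [Field K] (Γ : Subgroup Kˣ) (l : ℕ) (x : K) : Prop :=
  ∃ (s : Finset (Fin l)) (u : Fin l → Kˣ), (∀ j, u j ∈ Γ) ∧ x = ∑ j ∈ s, (u j : K)

theorem result (K : Type) [Field K] [NumberField K] (Γ : Subgroup Kˣ) (hΓ : Γ.FG) (n l M : ℕ)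
    (ε : ℝ) (hε : 0 < ε) :
    ∃ (G : MvPolynomial (Fin (n + 1)) K) (C : ℝ), (∃ e, G.IsHomogeneous e) ∧ G ≠ 0 ∧
      ∀ z : Fin (n + 2) → K, (∀ i, z i ≠ 0) → ∑ i, z i = 0 → (∀ i, Sparse Γ l (z i)) →
        eval (fun i : Fin (n + 1) => z i.castSucc) G ≠ 0 →
        ∀ ρ : 𝓞 K, ρ ≠ 0 → Sparse Γ l (ρ : K) →
          (∃ t : K, Sparse Γ l t ∧ (ρ : K) ^ M = t * ∏ i, z i) →
          Height.logHeight z ≤ (1 + ε) * Real.log |((Algebra.norm ℤ ρ : ℤ) : ℝ)| + C := by
  obtain ⟨G, C, h1, h2, h3⟩ := Pool.Agent.P8H9.SN.main K Γ hΓ n l M ε hε
  exact ⟨G, C, h1, h2, fun z hz hsum hs hG ρ hρ hρs ⟨t, ht, hrel⟩ =>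
    h3 z ρ t hz hsum hρ hrel hs hρs ht hG⟩

end Pool.Agent.Results.MP_7475bd_nt.SparsePointsOverNumberFields
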