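import Mathlib
import Pool.Agent.P8H51.EB.FinalU
import Pool.Agent.P8H51.EA.Bmg
import Pool.Agent.P8H88.EA.Gctq
import Pool.Agent.P8H46.EB.Cut2
import Pool.Agent.P8H84.EB.Lot2

/-!
# The abcd inequality with an explicit constant for numbers with few digits to the base of a unit

Let `K` be a number field of degree `n`, and `u` a unit of `K` none of whose conjugates has absolute value one, for instance any
unit `u ≠ ± 1` of a real quadratic subfield. Then there are `t > 1` and a natural number `ν ≥ 1` such that each conjugate `u'` of `u`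
satisfies `t ≤ |u'| ≤ t ^ ν` or `|u'| ≤ 1 / t`; in the real quadratic case we may take `ν = 1`. We consider the points
`(A_1 : ... : A_N)` of the hyperplane `Z_1 + ... + Z_N = 0`, `N ≥ 3`, without vanishing subsums with coordinates

  `A_σ = w_σ ∏_{i ∈ I_σ} x_i ^ (e_i)`,

where the `p` numbers `x_i ≠ 0` are sums of `k` terms `c u ^ a`, `a ∈ ℤ`, `c` an algebraic integer of `K` all of whose
conjugates have absolute value at most `M`, and the `w_σ` are such terms, and prove

  `h (A) ≤ (1 / n) (κ_N ∑_i log |N (x_i)| + (96 n ν D r (1 + log (q M))) ^ (2 r ^ 3))`, `r = p k + N`,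

if `∑_{i ∈ I_σ} e_i < D` for all `σ` and the ideal generated by the `A_σ` contains the positive integer `q`. Here `κ_3 = 1`,
`κ_4 = 3`, and `κ_N = (N - 1) (N - 2) (N - 3) / 2` for `N ≥ 5`. The bound depends on the unit `u` only through `ν` and on `K` only
through the degree: it holds for all real quadratic fields and all their units at once. There is no exceptional set except for the
points with a vanishing subsum.

Proof. We pass to the base `θ = u ^ h`, `h` the smallest number for which `t ^ h` is at least `16 (q + 1) ^ 4`. If `t ^ h` is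
very large, then the relation `∑ A_σ = 0` holds digit by digit, that is it comes from an identity between polynomials in a variable
`T` of which the `x_i` and `w_σ` are the values at `T = θ`; otherwise the exponents are split into two parts such that the
relation is the value of an identity of polynomials with controlled coefficients and exponents with large gaps. Here a vanishing
sum of terms `c θ ^ a` splits at large gaps of the exponents, because the lower part is small at the places where `|θ|` is large and,
being minus the upper part, also at the other places (package CUT2). The gaps imply that the zeros of the polynomials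
different from `0` are near the unit circle (ROT); for a common zero `ρ` the number `q / (θ - ρ)` would be an algebraic
integer with a norm less than one (GCTQ). The theorem of Brownawell-Masser and Mason-Stothers for polynomials (from the
library theorem of helper954 and helper977) bounds the degrees, and the gaps also show that norm and size of the `x_i` are determined
by the degree (LOT2, UPT).

Packages UPT, ROT and the cases of LOT2, CUT2 where all conjugates have absolute value `t` or `1 / t` were proved by helper71,
GCTQ by helper88, LOT2 by helper84, CUT2 by helper46.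
-/

set_option autoImplicit false

namespace Pool.Agent.Results.MP_7475bd_nt.UnitDigits

open NumberField

/-- `x` is a sum of `k` terms `c u ^ a`, where `a ∈ ℤ` and `c` is an algebraic integer of `K` all of whose conjugates have
absolute value at most `M` -/
def FewPowers {K : Type} [Field K] (u : (𝓞 K)ˣ) (k : ℕ) (M : ℝ) (x : 𝓞 K) : Prop :=
  ∃ (c : Fin k → 𝓞 K) (a : Fin k → ℤ), (∀ j (φ : K →+* ℂ), ‖φ (c j)‖ ≤ M) ∧
    x = ∑ j, c j * ((u ^ (a j) : (𝓞 K)ˣ) : 𝓞 K)

/-- the height `h` of the problem of the point with homogeneous coordinates `z` -/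
noncomputable def height {K : Type} [Field K] [NumberField K] {N : ℕ} (z : Fin N → K) : ℝ :=
  Height.logHeight z / Module.finrank ℚ K

/-- the constant `κ_N`; `κ_3 = 1`, `κ_4 = 3`, `κ_N = (N - 1) (N - 2) (N - 3) / 2` for `N ≥ 5` -/
def kappa (N : ℕ) : ℕ := (N - 1) * (N - 2) / 2 * max 1 (N - 3)

/-- **The abcd inequality with explicit constant for numbers with few digits to the base of a unit**, over all number fields
and uniformly in the units with given `ν`. -/
theorem result (K : Type) [Field K] [NumberField K] (N p k D q ν : ℕ) (M t : ℝ) (hN : 3 ≤ N)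
    (hq : 1 ≤ q)
    -- the unit `u`, whose conjugates have absolute value between `t` and `t ^ ν` or at most `1 / t`
    (u : (𝓞 K)ˣ) (hν : 1 ≤ ν) (ht : 1 < t)
    (hu : ∀ φ : K →+* ℂ, (t ≤ ‖φ ((u : 𝓞 K) : K)‖ ∧ ‖φ ((u : 𝓞 K) : K)‖ ≤ t ^ ν) ∨
      ‖φ ((u : 𝓞 K) : K)‖ ≤ t⁻¹)
    -- the `x_i` have `k` digits, the `w_σ` one digit to the base `u`
    (x : Fin p → 𝓞 K) (hx : ∀ i, FewPowers u k M (x i)) (hx0 : ∀ i, x i ≠ 0)
    (w : Fin N → 𝓞 K) (hw : ∀ σ, FewPowers u 1 M (w σ))
    -- the coordinates; `x_i` belongs to the coordinate `τ i`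
    (τ : Fin p → Fin N) (e : Fin p → ℕ) (hD : ∀ σ, ∑ i with τ i = σ, e i < D)
    (A : Fin N → 𝓞 K) (hA : ∀ σ, A σ = w σ * ∏ i with τ i = σ, x i ^ e i)
    (hsum : ∑ σ, A σ = 0)
    (hsub : ∀ s : Finset (Fin N), s.Nonempty → s ≠ Finset.univ → ∑ σ ∈ s, A σ ≠ 0)
    (hgcd : (q : 𝓞 K) ∈ Ideal.span (Set.range A)) :
    height (fun σ => (A σ : K)) ≤
      (kappa N * ∑ i, Real.log |(Algebra.norm ℤ (x i) : ℝ)| +
        (96 * (D * Module.finrank ℚ K * (p * k + N : ℕ) * (ν * (1 + Real.log (q * M))))) ^
          (2 * (p * k + N) ^ 3)) / Module.finrank ℚ K := by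
  classical
  refine div_le_div_of_nonneg_right ?_ (Nat.cast_nonneg _)
  choose c a hc hxx using hx
  choose cw aw hcw hww using hw
  have hA0 : ∀ σ, A σ ≠ 0 := by
    intro σ
    have h3 := hsub {σ} (Finset.singleton_nonempty σ) (by
      intro h4
      have h5 := congrArg Finset.card h4
      rw [Finset.card_singleton, Finset.card_univ, Fintype.card_fin] at h5
      omega)
    rwa [Finset.sum_singleton] at h3
  have hD1 : 1 ≤ D := by
    have := hD ⟨0, by omega⟩
    omega
  have hM : 0 ≤ M := by
    obtain ⟨φ⟩ : Nonempty (K →+* ℂ) := inferInstance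
    exact (norm_nonneg _).trans (hcw ⟨0, by omega⟩ 0 φ)
  have hp : p ≤ D * (p * k + N) := by
    have h1 : p ≤ p * k + N := by
      rcases Nat.eq_zero_or_pos k with hk | hk
      · rcases Nat.eq_zero_or_pos p with hp | hp
        · omega
        · exfalso
          apply hx0 ⟨0, hp⟩
          rw [hxx]
          subst hk
          simp
      · have := Nat.le_mul_of_pos_right p hk
        omega
    exact h1.trans (Nat.le_mul_of_pos_left _ hD1)
  have h1 := Pool.Agent.P8H51.EB.finalS Pool.Agent.P8H84.EB.lot2 Pool.Agent.P8H46.EB.cut2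
    Pool.Agent.P8H88.EA.gctq Pool.Agent.P8H51.EA.Bm.masn K N p
    (p * k) D M hN hp u t ν hν ht ⟨u.ne_zero, hu⟩ q hq τ e hD
    (fun i j => if (finProdFinEquiv.symm j).1 = i then c i (finProdFinEquiv.symm j).2 else 0)
    (fun j => a (finProdFinEquiv.symm j).1 (finProdFinEquiv.symm j).2)
    (by
      intro i j φ
      split_ifs
      · exact hc _ _ φ
      · simpa using hM)
    x
    (by
      intro i
      rw [hxx i, ← Equiv.sum_comp finProdFinEquiv, Fintype.sum_prod_type]
      simp only [Equiv.symm_apply_apply, ite_mul, zero_mul]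
      rw [Finset.sum_eq_single i]
      · simp
      · intro s _ hs
        simp [hs]
      · simp)
    hx0 (fun σ => cw σ 0) (fun σ => aw σ 0) (fun σ => hcw σ 0) w
    (fun σ => by rw [hww σ, Fin.sum_univ_one]) A hA hsum hsub hgcd
  have h2 : Real.log |(Algebra.norm ℤ (∏ i, x i) : ℝ)| =
      ∑ i, Real.log |(Algebra.norm ℤ (x i) : ℝ)| := by
    rw [map_prod]
    push_cast
    rw [Finset.abs_prod, Real.log_prod]
    intro i _
    rw [Ne, abs_eq_zero]
    have h3 : Algebra.norm ℤ (x i) ≠ 0 := by
      rw [Algebra.norm_ne_zero_iff]
      exact hx0 i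
    exact_mod_cast h3
  rw [h2] at h1
  refine le_trans ?_ h1
  have hA1 : A ≠ 0 := by
    intro h3
    apply hA0 ⟨0, by omega⟩
    rw [h3]
    rfl
  unfold Height.logHeight
  exact Real.log_le_log (Height.mulHeight_pos _) (Pool.Agent.P8H51.EA.mulHeight_le A hA1)

end Pool.Agent.Results.MP_7475bd_nt.UnitDigits
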